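import Pool.Statements.S12344

/-!
Counterexample: a triangle `0 1 2`, and for each of its three edges `a b` a strip
`a, p, q, r, s, b` (the square of a path on six vertices) glued along its two ends.
The graph has 15 vertices, is perfect (every piece is glued along a clique), and is uniquely
3-colourable; in the strip between `a` and `b` the two vertices `p, s` get the third colour,
and they form a component of their colour class in the graph of critical pairs.
-/

set_option autoImplicit false
open Pool Pool.MP_f0e024_co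

namespace Pool.Agent.HM94.BoldCounterexample

/-- neighbour masks -/
def mask : Fin 15 → ℕ :=
  ![6 + 8 + 16 + 2^13 + 2^14,
    1 + 4 + 2^5 + 2^6 + 2^7 + 2^8,
    1 + 2 + 2^9 + 2^10 + 2^11 + 2^12,
    2^0 + 2^4 + 2^5, 2^0 + 2^3 + 2^5 + 2^6, 2^3 + 2^4 + 2^6 + 2^1, 2^4 + 2^5 + 2^1,
    2^1 + 2^8 + 2^9, 2^1 + 2^7 + 2^9 + 2^10, 2^7 + 2^8 + 2^10 + 2^2, 2^8 + 2^9 + 2^2,
    2^2 + 2^12 + 2^13, 2^2 + 2^11 + 2^13 + 2^14, 2^11 + 2^12 + 2^14 + 2^0, 2^12 + 2^13 + 2^0]

/-- adjacency as a Boolean -/
def adjB (u v : Fin 15) : Bool := (mask u).testBit v.val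

theorem adjB_symm : ∀ u v : Fin 15, adjB u v = true → adjB v u = true := by decide

theorem adjB_irrefl : ∀ u : Fin 15, adjB u u = false := by decide

/-- the graph -/
def G : SimpleGraph (Fin 15) where
  Adj u v := adjB u v = true
  symm := ⟨fun u v h => adjB_symm u v h⟩
  loopless := ⟨fun u h => by rw [adjB_irrefl u] at h; exact Bool.false_ne_true h⟩

theorem G_adj (u v : Fin 15) : G.Adj u v ↔ adjB u v = true := Iff.rfl

instance : DecidableRel G.Adj := fun u v => inferInstanceAs (Decidable (adjB u v = true))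

/-- the colour of a vertex, given as the vertex of the central triangle with that colour -/
def base : Fin 15 → Fin 3 :=
  ![0, 1, 2, 2, 1, 0, 2, 0, 2, 1, 0, 1, 0, 2, 1]

theorem base_proper : ∀ u v : Fin 15, adjB u v = true → base u ≠ base v := by decide

theorem G_colorable : G.Colorable 3 :=
  ⟨SimpleGraph.Coloring.mk base fun {u v} h => base_proper u v h⟩

/-- no four pairwise adjacent vertices -/
theorem card_le_three (T : Finset (Fin 15)) (hT : G.IsClique (T : Set (Fin 15))) :
    T.card ≤ 3 := by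
  have hinj : Set.InjOn base (T : Set (Fin 15)) := by
    intro a ha b hb hab
    by_contra hne
    exact base_proper a b (hT ha hb hne) hab
  have := Finset.card_le_card_of_injOn base (fun a _ => Finset.mem_univ (base a)) hinj
  simpa using this

/-- `x` and `y` differ unless one of the two vertices is absent -/
def pr (a b x y : Bool) : Bool := !(a && b) || (x != y)

theorem pr_ne {a b x y : Bool} (h : pr a b x y = true) : a = true → b = true → x ≠ y := by
  revert a b x y; decide

theorem ne_pr {a b x y : Bool} (h : a = true → b = true → x ≠ y) : pr a b x y = true := by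
  revert a b x y; decide

theorem strip0 : ∀ m1 m2 m3 m4 m5 m6 : Bool,
    (m1 && m2 && m3) = false → (m2 && m3 && m4) = false →
    (m3 && m4 && m5) = false → (m4 && m5 && m6) = false →
    ∀ c1 c6 : Bool, pr m1 m6 c1 c6 = true →
    ∃ c2 c3 c4 c5 : Bool,
      (pr m1 m2 c1 c2 && pr m1 m3 c1 c3 && pr m2 m3 c2 c3 && pr m2 m4 c2 c4 && pr m3 m4 c3 c4 &&
       pr m3 m5 c3 c5 && pr m4 m5 c4 c5 && pr m4 m6 c4 c6 && pr m5 m6 c5 c6) = true := by decide

theorem and3 {a b c : Bool} (h : ¬ (a = true ∧ b = true ∧ c = true)) : (a && b && c) = false := by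
  revert a b c; decide

theorem strip (m1 m2 m3 m4 m5 m6 : Bool)
    (h1 : ¬ (m1 = true ∧ m2 = true ∧ m3 = true)) (h2 : ¬ (m2 = true ∧ m3 = true ∧ m4 = true))
    (h3 : ¬ (m3 = true ∧ m4 = true ∧ m5 = true)) (h4 : ¬ (m4 = true ∧ m5 = true ∧ m6 = true))
    (c1 c6 : Bool) (h : m1 = true → m6 = true → c1 ≠ c6) :
    ∃ c2 c3 c4 c5 : Bool,
      (m1 = true → m2 = true → c1 ≠ c2) ∧ (m1 = true → m3 = true → c1 ≠ c3) ∧
      (m2 = true → m3 = true → c2 ≠ c3) ∧ (m2 = true → m4 = true → c2 ≠ c4) ∧
      (m3 = true → m4 = true → c3 ≠ c4) ∧ (m3 = true → m5 = true → c3 ≠ c5) ∧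
      (m4 = true → m5 = true → c4 ≠ c5) ∧ (m4 = true → m6 = true → c4 ≠ c6) ∧
      (m5 = true → m6 = true → c5 ≠ c6) := by
  obtain ⟨c2, c3, c4, c5, hh⟩ := strip0 m1 m2 m3 m4 m5 m6 (and3 h1) (and3 h2) (and3 h3) (and3 h4)
    c1 c6 (ne_pr h)
  simp only [Bool.and_eq_true] at hh
  obtain ⟨⟨⟨⟨⟨⟨⟨⟨g1, g2⟩, g3⟩, g4⟩, g5⟩, g6⟩, g7⟩, g8⟩, g9⟩ := hh
  exact ⟨c2, c3, c4, c5, pr_ne g1, pr_ne g2, pr_ne g3, pr_ne g4, pr_ne g5, pr_ne g6, pr_ne g7,
    pr_ne g8, pr_ne g9⟩

theorem edge_list : ∀ u v : Fin 15, u < v → adjB u v = true →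
    (u, v) ∈ ([(0,1),(1,2),(0,2),(0,3),(0,4),(3,4),(3,5),(4,5),(4,6),(5,6),(1,5),(1,6),
        (1,7),(1,8),(7,8),(7,9),(8,9),(8,10),(9,10),(2,9),(2,10),
        (2,11),(2,12),(11,12),(11,13),(12,13),(12,14),(13,14),(0,13),(0,14)] :
          List (Fin 15 × Fin 15)) := by decide

theorem tri : ∀ m0 m1 m2 : Bool, ¬ (m0 = true ∧ m1 = true ∧ m2 = true) →
    ∃ c0 c1 c2 : Bool, (m0 = true → m1 = true → c0 ≠ c1) ∧ (m1 = true → m2 = true → c1 ≠ c2) ∧
      (m2 = true → m0 = true → c2 ≠ c0) := by decide

theorem two_col (m : Fin 15 → Bool)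
    (h : ∀ u v w : Fin 15, adjB u v = true → adjB u w = true → adjB v w = true →
      ¬ (m u = true ∧ m v = true ∧ m w = true)) :
    ∃ c : Fin 15 → Bool, ∀ u v : Fin 15, adjB u v = true → m u = true → m v = true →
      c u ≠ c v := by
  obtain ⟨c0, c1, c2, t1, t2, t3⟩ := tri (m 0) (m 1) (m 2)
    (h 0 1 2 (by decide) (by decide) (by decide))
  obtain ⟨c3, c4, c5, c6, a1, a2, a3, a4, a5, a6, a7, a8, a9⟩ :=
    strip (m 0) (m 3) (m 4) (m 5) (m 6) (m 1)
      (h 0 3 4 (by decide) (by decide) (by decide))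
      (h 3 4 5 (by decide) (by decide) (by decide))
      (h 4 5 6 (by decide) (by decide) (by decide))
      (h 5 6 1 (by decide) (by decide) (by decide)) c0 c1 t1
  obtain ⟨c7, c8, c9, c10, b1, b2, b3, b4, b5, b6, b7, b8, b9⟩ :=
    strip (m 1) (m 7) (m 8) (m 9) (m 10) (m 2)
      (h 1 7 8 (by decide) (by decide) (by decide))
      (h 7 8 9 (by decide) (by decide) (by decide))
      (h 8 9 10 (by decide) (by decide) (by decide))
      (h 9 10 2 (by decide) (by decide) (by decide)) c1 c2 t2
  obtain ⟨c11, c12, c13, c14, d1, d2, d3, d4, d5, d6, d7, d8, d9⟩ :=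
    strip (m 2) (m 11) (m 12) (m 13) (m 14) (m 0)
      (h 2 11 12 (by decide) (by decide) (by decide))
      (h 11 12 13 (by decide) (by decide) (by decide))
      (h 12 13 14 (by decide) (by decide) (by decide))
      (h 13 14 0 (by decide) (by decide) (by decide)) c2 c0 t3
  refine ⟨![c0, c1, c2, c3, c4, c5, c6, c7, c8, c9, c10, c11, c12, c13, c14], ?_⟩
  have key : ∀ u v : Fin 15, u < v → adjB u v = true → m u = true → m v = true →
      (![c0, c1, c2, c3, c4, c5, c6, c7, c8, c9, c10, c11, c12, c13, c14] : Fin 15 → Bool) u ≠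
      (![c0, c1, c2, c3, c4, c5, c6, c7, c8, c9, c10, c11, c12, c13, c14] : Fin 15 → Bool) v := by
    intro u v huv hadj hu hv
    have : (u, v) ∈ ([(0,1),(1,2),(0,2),(0,3),(0,4),(3,4),(3,5),(4,5),(4,6),(5,6),(1,5),(1,6),
        (1,7),(1,8),(7,8),(7,9),(8,9),(8,10),(9,10),(2,9),(2,10),
        (2,11),(2,12),(11,12),(11,13),(12,13),(12,14),(13,14),(0,13),(0,14)] :
          List (Fin 15 × Fin 15)) := edge_list u v huv hadj
    simp only [List.mem_cons, List.not_mem_nil, or_false, Prod.mk.injEq] at this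
    rcases this with h | h | h | h | h | h | h | h | h | h | h | h | h | h | h | h | h | h | h | h |
      h | h | h | h | h | h | h | h | h | h <;> obtain ⟨rfl, rfl⟩ := h
    · exact t1 hu hv
    · exact t2 hu hv
    · exact (t3 hv hu).symm
    · exact a1 hu hv
    · exact a2 hu hv
    · exact a3 hu hv
    · exact a4 hu hv
    · exact a5 hu hv
    · exact a6 hu hv
    · exact a7 hu hv
    · exact (a8 hv hu).symm
    · exact (a9 hv hu).symm
    · exact b1 hu hv
    · exact b2 hu hv
    · exact b3 hu hv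
    · exact b4 hu hv
    · exact b5 hu hv
    · exact b6 hu hv
    · exact b7 hu hv
    · exact (b8 hv hu).symm
    · exact (b9 hv hu).symm
    · exact d1 hu hv
    · exact d2 hu hv
    · exact d3 hu hv
    · exact d4 hu hv
    · exact d5 hu hv
    · exact d6 hu hv
    · exact d7 hu hv
    · exact (d8 hv hu).symm
    · exact (d9 hv hu).symm
  intro u v hadj hu hv
  rcases lt_trichotomy u v with hlt | heq | hgt
  · exact key u v hlt hadj hu hv
  · subst heq
    rw [adjB_irrefl] at hadj
    exact absurd hadj Bool.false_ne_true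
  · exact (key v u hgt (adjB_symm u v hadj) hv hu).symm

theorem perfect (S : Finset (Fin 15)) : ∃ K : Finset (Fin 15), K ⊆ S ∧
    G.IsClique (K : Set (Fin 15)) ∧ (G.induce (S : Set (Fin 15))).Colorable K.card := by
  classical
  by_cases h3 : ∃ u v w : Fin 15, (adjB u v = true ∧ adjB u w = true ∧ adjB v w = true) ∧
      (u ∈ S ∧ v ∈ S ∧ w ∈ S)
  · obtain ⟨u, v, w, ⟨huv, huw, hvw⟩, hu, hv, hw⟩ := h3
    have hc : G.IsNClique 3 {u, v, w} := by
      rw [SimpleGraph.is3Clique_triple_iff]
      exact ⟨huv, huw, hvw⟩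
    refine ⟨{u, v, w}, ?_, hc.isClique, ?_⟩
    · intro x hx
      simp only [Finset.mem_insert, Finset.mem_singleton] at hx
      rcases hx with rfl | rfl | rfl <;> assumption
    · rw [hc.card_eq]
      obtain ⟨c⟩ := G_colorable
      exact ⟨SimpleGraph.Coloring.mk (fun x => c x.1) fun {x y} h => c.valid h⟩
  by_cases h2 : ∃ u v : Fin 15, adjB u v = true ∧ u ∈ S ∧ v ∈ S
  · obtain ⟨u, v, huv, hu, hv⟩ := h2
    have hne : u ≠ v := fun h => by
      subst h
      rw [adjB_irrefl] at huv
      exact absurd huv Bool.false_ne_true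
    refine ⟨{u, v}, ?_, ?_, ?_⟩
    · intro x hx
      simp only [Finset.mem_insert, Finset.mem_singleton] at hx
      rcases hx with rfl | rfl <;> assumption
    · intro a ha b hb hab
      simp only [Finset.coe_insert, Finset.coe_singleton, Set.mem_insert_iff,
        Set.mem_singleton_iff] at ha hb
      rcases ha with rfl | rfl <;> rcases hb with rfl | rfl
      · exact absurd rfl hab
      · exact huv
      · exact adjB_symm _ _ huv
      · exact absurd rfl hab
    · rw [Finset.card_pair hne]
      obtain ⟨c, hc⟩ := two_col (fun x => decide (x ∈ S)) (by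
        intro u v w h1 h2' h4 h5
        simp only [decide_eq_true_eq] at h5
        exact h3 ⟨u, v, w, ⟨h1, h2', h4⟩, h5⟩)
      have : (G.induce (S : Set (Fin 15))).Colorable (Fintype.card Bool) := by
        apply SimpleGraph.Coloring.colorable
        exact SimpleGraph.Coloring.mk (fun x => c x.1) fun {x y} h => hc x.1 y.1 h
          (by simp) (by simp)
      simpa using this
  by_cases h1 : S.Nonempty
  · obtain ⟨u, hu⟩ := h1
    refine ⟨{u}, by simpa using hu, ?_, ?_⟩
    · simp
    · rw [Finset.card_singleton]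
      refine ⟨SimpleGraph.Coloring.mk (fun _ => 0) ?_⟩
      intro x y h
      exact absurd ⟨x.1, y.1, h, by simp, by simp⟩ h2
  · rw [Finset.not_nonempty_iff_eq_empty] at h1
    subst h1
    refine ⟨∅, le_refl _, ?_, ?_⟩
    · simp
    · rw [Finset.card_empty]
      refine ⟨SimpleGraph.Coloring.mk (fun x => absurd x.2 (by simp)) ?_⟩
      intro x y h
      exact absurd x.2 (by simp)

theorem fin3_third : ∀ a b u w : Fin 3, a ≠ b → u ≠ a → u ≠ b → w ≠ a → w ≠ b → u = w := by
  decide

/-- every 3-colouring is the standard one up to renaming the colours -/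
theorem col_eq (c : G.Coloring (Fin 3)) : ∀ v : Fin 15,
    c v = c ((![0, 1, 2] : Fin 3 → Fin 15) (base v)) := by
  have va : ∀ u v : Fin 15, adjB u v = true → c u ≠ c v := fun u v h => c.valid h
  have dia : ∀ x p q y : Fin 15, adjB x p = true → adjB x q = true → adjB p q = true →
      adjB y p = true → adjB y q = true → c x = c y := by
    intro x p q y h1 h2 h3 h4 h5
    exact fin3_third (c p) (c q) (c x) (c y) (va _ _ h3) (va _ _ h1) (va _ _ h2) (va _ _ h4)
      (va _ _ h5)
  have e5 : c 5 = c 0 := dia 5 3 4 0 (by decide) (by decide) (by decide) (by decide) (by decide)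
  have e4 : c 4 = c 1 := dia 4 5 6 1 (by decide) (by decide) (by decide) (by decide) (by decide)
  have e63 : c 6 = c 3 := dia 6 4 5 3 (by decide) (by decide) (by decide) (by decide) (by decide)
  have e3 : c 3 = c 2 := by
    apply fin3_third (c 0) (c 1) _ _ (va _ _ (by decide)) (va _ _ (by decide)) _
      (va _ _ (by decide)) (va _ _ (by decide))
    rw [← e4]
    exact va _ _ (by decide)
  have e9 : c 9 = c 1 := dia 9 7 8 1 (by decide) (by decide) (by decide) (by decide) (by decide)
  have e8 : c 8 = c 2 := dia 8 9 10 2 (by decide) (by decide) (by decide) (by decide) (by decide)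
  have e107 : c 10 = c 7 := dia 10 8 9 7 (by decide) (by decide) (by decide) (by decide) (by decide)
  have e7 : c 7 = c 0 := by
    apply fin3_third (c 1) (c 2) _ _ (va _ _ (by decide)) (va _ _ (by decide)) _
      (va _ _ (by decide)) (va _ _ (by decide))
    rw [← e8]
    exact va _ _ (by decide)
  have e13 : c 13 = c 2 := dia 13 11 12 2 (by decide) (by decide) (by decide) (by decide) (by decide)
  have e12 : c 12 = c 0 := dia 12 13 14 0 (by decide) (by decide) (by decide) (by decide) (by decide)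
  have e1411 : c 14 = c 11 := dia 14 12 13 11 (by decide) (by decide) (by decide) (by decide)
    (by decide)
  have e11 : c 11 = c 1 := by
    apply fin3_third (c 2) (c 0) _ _ (va _ _ (by decide)) (va _ _ (by decide)) _
      (va _ _ (by decide)) (va _ _ (by decide))
    rw [← e12]
    exact va _ _ (by decide)
  intro v
  fin_cases v
  · rfl
  · rfl
  · rfl
  · exact e3
  · exact e4
  · exact e5
  · exact e63.trans e3
  · exact e7
  · exact e8
  · exact e9
  · exact e107.trans e7
  · exact e11
  · exact e12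
  · exact e13
  · exact e1411.trans e11

theorem col_iff (c : G.Coloring (Fin 3)) (x y : Fin 15) : c x = c y ↔ base x = base y := by
  have h01 : c 0 ≠ c 1 := c.valid (show adjB 0 1 = true by decide)
  have h02 : c 0 ≠ c 2 := c.valid (show adjB 0 2 = true by decide)
  have h12 : c 1 ≠ c 2 := c.valid (show adjB 1 2 = true by decide)
  rw [col_eq c x, col_eq c y]
  generalize base x = i
  generalize base y = j
  fin_cases i <;> fin_cases j <;> simp [h01, h02, h12, h01.symm, h02.symm, h12.symm]

theorem not_two : ¬ G.Colorable 2 := by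
  rintro ⟨c⟩
  have h01 : c 0 ≠ c 1 := c.valid (show adjB 0 1 = true by decide)
  have h02 : c 0 ≠ c 2 := c.valid (show adjB 0 2 = true by decide)
  have h12 : c 1 ≠ c 2 := c.valid (show adjB 1 2 = true by decide)
  have : ∀ a b d : Fin 2, a ≠ b → a ≠ d → b ≠ d → False := by decide
  exact this _ _ _ h01 h02 h12

theorem chrom : G.chromaticNumber = ((3 : ℕ) : ℕ∞) := by
  apply le_antisymm
  · exact G_colorable.chromaticNumber_le
  · by_contra h
    rw [not_le] at h
    have h2 : G.chromaticNumber ≤ ((2 : ℕ) : ℕ∞) := by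
      have : ((3 : ℕ) : ℕ∞) = ((2 : ℕ) : ℕ∞) + 1 := by norm_num
      rw [this] at h
      exact Order.le_of_lt_add_one h
    exact not_two (SimpleGraph.chromaticNumber_le_iff_colorable.mp h2)

/-- a critical pair has two adjacent common neighbours -/
theorem crit (x y : Fin 15) (hxy : x ≠ y) (h : ∃ K : Finset (Fin 15),
    (G ⊔ SimpleGraph.fromEdgeSet {s(x, y)}).IsClique (K : Set (Fin 15)) ∧
    ∀ T : Finset (Fin 15), G.IsClique (T : Set (Fin 15)) → T.card < K.card) :
    ∃ p q : Fin 15, adjB x p = true ∧ adjB y p = true ∧ adjB x q = true ∧ adjB y q = true ∧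
      adjB p q = true := by
  obtain ⟨K, hK, hT⟩ := h
  have h4 : 3 < K.card := by
    have hc : G.IsNClique 3 {0, 1, 2} := by
      rw [SimpleGraph.is3Clique_triple_iff]
      exact ⟨by decide, by decide, by decide⟩
    have := hT _ hc.isClique
    rwa [hc.card_eq] at this
  have hadj : ∀ a ∈ K, ∀ b ∈ K, a ≠ b → (¬ ((a = x ∧ b = y) ∨ (a = y ∧ b = x))) →
      adjB a b = true := by
    intro a ha b hb hab hn
    have := hK (Finset.mem_coe.mpr ha) (Finset.mem_coe.mpr hb) hab
    rw [SimpleGraph.sup_adj] at this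
    rcases this with h | h
    · exact h
    · rw [SimpleGraph.fromEdgeSet_adj] at h
      obtain ⟨h, _⟩ := h
      rw [Set.mem_singleton_iff, Sym2.eq_iff] at h
      exact absurd h hn
  have hcl : ∀ z ∈ ({x, y} : Finset (Fin 15)), z ∈ K := by
    intro z hz
    by_contra hzK
    have : G.IsClique (K : Set (Fin 15)) := by
      intro a ha b hb hab
      apply hadj a (Finset.mem_coe.mp ha) b (Finset.mem_coe.mp hb) hab
      rintro (⟨rfl, rfl⟩ | ⟨rfl, rfl⟩)
      · simp only [Finset.mem_insert, Finset.mem_singleton] at hz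
        rcases hz with rfl | rfl
        · exact hzK (Finset.mem_coe.mp ha)
        · exact hzK (Finset.mem_coe.mp hb)
      · simp only [Finset.mem_insert, Finset.mem_singleton] at hz
        rcases hz with rfl | rfl
        · exact hzK (Finset.mem_coe.mp hb)
        · exact hzK (Finset.mem_coe.mp ha)
    exact lt_irrefl _ (hT K this)
  have hx : x ∈ K := hcl x (by simp)
  have hy : y ∈ K := hcl y (by simp)
  have hcard : 1 < ((K.erase x).erase y).card := by
    rw [Finset.card_erase_of_mem (Finset.mem_erase.mpr ⟨hxy.symm, hy⟩),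
      Finset.card_erase_of_mem hx]
    omega
  obtain ⟨p, hp, q, hq, hpq⟩ := Finset.one_lt_card.mp hcard
  simp only [Finset.mem_erase] at hp hq
  refine ⟨p, q, ?_, ?_, ?_, ?_, ?_⟩
  · apply hadj x hx p hp.2.2 (Ne.symm hp.2.1)
    rintro (⟨_, h⟩ | ⟨h, _⟩)
    · exact hp.1 h
    · exact hxy h
  · apply hadj y hy p hp.2.2 (Ne.symm hp.1)
    rintro (⟨h, _⟩ | ⟨_, h⟩)
    · exact hxy h.symm
    · exact hp.2.1 h
  · apply hadj x hx q hq.2.2 (Ne.symm hq.2.1)
    rintro (⟨_, h⟩ | ⟨h, _⟩)
    · exact hq.1 h
    · exact hxy h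
  · apply hadj y hy q hq.2.2 (Ne.symm hq.1)
    rintro (⟨h, _⟩ | ⟨_, h⟩)
    · exact hxy h.symm
    · exact hq.2.1 h
  · apply hadj p hp.2.2 q hq.2.2 hpq
    rintro (⟨h, _⟩ | ⟨h, _⟩)
    · exact hp.2.1 h
    · exact hp.1 h

/-- the strip a vertex of the third colour lies in -/
def side : Fin 15 → Bool :=
  ![false, false, false, true, false, false, true, true, false, false, true, true, false, false,
    true]

theorem side_crit : ∀ x y : Fin 15, x ≠ y → base x = base y → side x = true → side y = false →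
    ∀ p : Fin 15, adjB x p = true → adjB y p = true → ∀ q : Fin 15, adjB x q = true →
    adjB y q = true → adjB p q = true → False := by decide

theorem wit : ∀ j : Fin 3, ∃ a b : Fin 15, base a = j ∧ base b = j ∧ side a = true ∧
    side b = false := by decide

/-- The negation of the preceding statement: For every finite nonempty perfect graph G that is uniquely χ(G)-colourable, some colour class of the colouring induces a connected subgraph of the graph of pairs whose added edge raises the clique number. -/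
theorem result :
    ¬ (∀ (V : Type) [Fintype V] [Nonempty V] (G : SimpleGraph V) (k : ℕ),
    (∀ S : Finset V, ∃ K : Finset V, K ⊆ S ∧ G.IsClique (K : Set V) ∧
        (G.induce (S : Set V)).Colorable K.card) →
    G.chromaticNumber = k →
    (∀ c c' : G.Coloring (Fin k), ∀ x y : V, c x = c y ↔ c' x = c' y) →
    ∀ c : G.Coloring (Fin k), ∃ i : Fin k,
      ((SimpleGraph.fromRel (fun x y : V => ∃ K : Finset V,
          (G ⊔ SimpleGraph.fromEdgeSet {s(x, y)}).IsClique (K : Set V) ∧
          ∀ T : Finset V, G.IsClique (T : Set V) → T.card < K.card)).induce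
            {v : V | c v = i}).Connected) := by
  intro H
  obtain ⟨c⟩ := G_colorable
  obtain ⟨i, hi⟩ := H (Fin 15) G 3 perfect chrom
    (fun c c' x y => (col_iff c x y).trans (col_iff c' x y).symm) c
  have h01 : c 0 ≠ c 1 := c.valid (show adjB 0 1 = true by decide)
  have h02 : c 0 ≠ c 2 := c.valid (show adjB 0 2 = true by decide)
  have h12 : c 1 ≠ c 2 := c.valid (show adjB 1 2 = true by decide)
  have hsurj : ∃ j : Fin 3, c ((![0, 1, 2] : Fin 3 → Fin 15) j) = i := by
    have : ∀ a b d e : Fin 3, a ≠ b → a ≠ d → b ≠ d → a = e ∨ b = e ∨ d = e := by decide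
    rcases this _ _ _ i h01 h02 h12 with h | h | h
    · exact ⟨0, h⟩
    · exact ⟨1, h⟩
    · exact ⟨2, h⟩
  obtain ⟨j, hj⟩ := hsurj
  -- the two witnesses
  have hwit : ∃ a b : Fin 15, base a = j ∧ base b = j ∧ side a = true ∧ side b = false :=
    wit j
  obtain ⟨a, b, ha, hb, hsa, hsb⟩ := hwit
  have hca : c a = i := by rw [col_eq c a, ha, hj]
  have hcb : c b = i := by rw [col_eq c b, hb, hj]
  have hreach := hi.preconnected ⟨a, hca⟩ ⟨b, hcb⟩
  obtain ⟨w⟩ := hreach
  have hstep : ∀ u v : {v : Fin 15 | c v = i},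
      ((SimpleGraph.fromRel (fun x y : Fin 15 => ∃ K : Finset (Fin 15),
          (G ⊔ SimpleGraph.fromEdgeSet {s(x, y)}).IsClique (K : Set (Fin 15)) ∧
          ∀ T : Finset (Fin 15), G.IsClique (T : Set (Fin 15)) → T.card < K.card)).induce
            {v : Fin 15 | c v = i}).Adj u v → side u.1 = true → side v.1 = true := by
    intro u v huv hu
    have hadj : (SimpleGraph.fromRel (fun x y : Fin 15 => ∃ K : Finset (Fin 15),
          (G ⊔ SimpleGraph.fromEdgeSet {s(x, y)}).IsClique (K : Set (Fin 15)) ∧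
          ∀ T : Finset (Fin 15), G.IsClique (T : Set (Fin 15)) → T.card < K.card)).Adj u.1 v.1 :=
      huv
    rw [SimpleGraph.fromRel_adj] at hadj
    obtain ⟨hne, hR⟩ := hadj
    have hbase : base u.1 = base v.1 := (col_iff c u.1 v.1).mp (by
      rw [show c u.1 = i from u.2, show c v.1 = i from v.2])
    have hpq : ∃ p q : Fin 15, adjB u.1 p = true ∧ adjB v.1 p = true ∧ adjB u.1 q = true ∧
        adjB v.1 q = true ∧ adjB p q = true := by
      rcases hR with hR | hR
      · exact crit _ _ hne hR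
      · obtain ⟨p, q, h1, h2, h3, h4, h5⟩ := crit _ _ hne.symm hR
        exact ⟨p, q, h2, h1, h4, h3, h5⟩
    obtain ⟨p, q, h1, h2, h3, h4, h5⟩ := hpq
    by_contra hv
    rw [Bool.not_eq_true] at hv
    exact side_crit u.1 v.1 hne hbase hu hv p h1 h2 q h3 h4 h5
  have hall : ∀ (u v : {v : Fin 15 | c v = i})
      (w : ((SimpleGraph.fromRel (fun x y : Fin 15 => ∃ K : Finset (Fin 15),
          (G ⊔ SimpleGraph.fromEdgeSet {s(x, y)}).IsClique (K : Set (Fin 15)) ∧
          ∀ T : Finset (Fin 15), G.IsClique (T : Set (Fin 15)) → T.card < K.card)).induce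
            {v : Fin 15 | c v = i}).Walk u v), side u.1 = true → side v.1 = true := by
    intro u v w
    induction w with
    | nil => exact id
    | cons h _ ih => exact fun hu => ih (hstep _ _ h hu)
  have := hall _ _ w hsa
  rw [hsb] at this
  exact Bool.false_ne_true this

end Pool.Agent.HM94.BoldCounterexample
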